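import Pool.Agent.Helper2.UN.CDefs

/-!
Unitary Mumford-Tate pairs, block CR2: in a simply laced system the roots of value one are
pairwise adjacent, if the local linear forms exist and some root takes the value one on at least
two weights.
-/

open Module

namespace UN

section comb

variable {K : Type*} [Field K] [CharZero K] {M : Type*} [AddCommGroup M] [Module K M]
  {B : LinearMap.BilinForm K M} {s : M →ₗ[K] K} {c : K} {Φ X : Finset M}

namespace CR2

omit [CharZero K] in
theorem add_mem (h : USL B s c Φ X) {a b : M} (ha : a ∈ Φ) (hb : b ∈ Φ) (hab : B a b = -1) :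
    a + b ∈ Φ := by
  have := h.sub a ha (-b) (h.neg b hb) (by rw [map_neg, hab, neg_neg])
  rwa [sub_neg_eq_add] at this

omit [CharZero K] in
theorem xadd_mem (h : USL B s c Φ X) {x b : M} (hx : x ∈ X) (hb : b ∈ Φ) (hab : B x b = -1) :
    x + b ∈ X := by
  have := h.xsub x hx (-b) (h.neg b hb) (by rw [map_neg, hab, neg_neg])
  rwa [sub_neg_eq_add] at this

omit [CharZero K] in
theorem vals (h : USL B s c Φ X) {a : M} (ha : a ∈ Φ) : s a = -1 ∨ s a = 0 ∨ s a = 1 := by
  obtain ⟨x, hx, hxa⟩ := h.faith a ha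
  have h1 := h.xsub x hx a ha hxa
  have e : s a = s x - s (x - a) := by rw [map_sub]; ring
  rcases h.sx x hx with h2 | h2 <;> rcases h.sx _ h1 with h3 | h3 <;> rw [e, h2, h3]
  · right; left; ring
  · right; right; ring
  · left; ring
  · right; left; ring

theorem ne_zero (h : USL B s c Φ X) {a : M} (ha : a ∈ Φ) : a ≠ 0 := by
  rintro rfl
  have := h.two 0 ha
  simp at this

/-- F1 -/
theorem f1 (h : USL B s c Φ X) {x a : M} (hx : x ∈ X) (hs : s x = c) (ha : a ∈ Φ)
    (hsa : s a = 1) : B x a = 0 ∨ B x a = 1 := by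
  rcases h.small x hx a ha with h1 | h1 | h1
  · exfalso
    have h2 := h.sx _ (xadd_mem h hx ha h1)
    rw [map_add, hs, hsa] at h2
    rcases h2 with h2 | h2
    · have : (1 : K) = 0 := by linear_combination h2
      exact one_ne_zero this
    · have : (2 : K) = 0 := by linear_combination h2
      exact two_ne_zero this
  · exact Or.inl h1
  · exact Or.inr h1

/-- F1, lower weights -/
theorem f1' (h : USL B s c Φ X) {x a : M} (hx : x ∈ X) (ha : a ∈ Φ)
    (hsa : s a = 1) (h1 : B x a = 1) : s x = c ∧ s (x - a) = c - 1 := by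
  have h2 := h.sx _ (h.xsub x hx a ha h1)
  have h3 := h.sx x hx
  rw [map_sub, hsa] at h2 ⊢
  rcases h3 with h3 | h3
  · exact ⟨h3, by rw [h3]⟩
  · exfalso
    rw [h3] at h2
    rcases h2 with h2 | h2
    · have : (2 : K) = 0 := by linear_combination -h2
      exact two_ne_zero this
    · have : (1 : K) = 0 := by linear_combination -h2
      exact one_ne_zero this

/-- F2 -/
theorem f2 (h : USL B s c Φ X) {a b : M} (ha : a ∈ Φ) (hb : b ∈ Φ) (hsa : s a = 1)
    (hsb : s b = 1) (hne : a ≠ b) : B a b = 0 ∨ B a b = 1 := by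
  have h1 : a ≠ -b := by
    rintro rfl
    rw [map_neg, hsb] at hsa
    have : (2 : K) = 0 := by linear_combination -hsa
    exact two_ne_zero this
  rcases h.pair a ha b hb hne h1 with h2 | h2 | h2
  · exfalso
    have h3 := vals h (add_mem h ha hb h2)
    rw [map_add, hsa, hsb] at h3
    rcases h3 with h3 | h3 | h3
    · have : (3 : K) = 0 := by linear_combination h3
      exact three_ne_zero this
    · have : (2 : K) = 0 := by linear_combination h3
      exact two_ne_zero this
    · have : (1 : K) = 0 := by linear_combination h3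
      exact one_ne_zero this
  · exact Or.inl h2
  · exact Or.inr h2

/-- F4 -/
theorem f4 (h : USL B s c Φ X) {a b x : M} (ha : a ∈ Φ) (hb : b ∈ Φ) (hx : x ∈ X)
    (hsa : s a = 1) (hsb : s b = 1) (hab : B a b = 0) (h1 : B x a = 1) : B x b = 0 := by
  obtain ⟨h2, h3⟩ := f1' h hx ha hsa h1
  rcases f1 h hx h2 hb hsb with h4 | h4
  · exact h4
  · exfalso
    have h5 := (f1' h (h.xsub x hx a ha h1) hb hsb (by rw [map_sub, LinearMap.sub_apply, h4, hab,
      sub_zero])).1
    rw [h3] at h5
    have : (1 : K) = 0 := by linear_combination -h5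
    exact one_ne_zero this

omit [CharZero K] in
/-- reflection in a root preserves the weights -/
theorem refl_mem (h : USL B s c Φ X) {x g : M} (hx : x ∈ X) (hg : g ∈ Φ) :
    x - B x g • g ∈ X := by
  rcases h.small x hx g hg with h1 | h1 | h1
  · rw [h1, neg_one_smul, sub_neg_eq_add]
    exact xadd_mem h hx hg h1
  · rw [h1, zero_smul, sub_zero]; exact hx
  · rw [h1, one_smul]; exact h.xsub x hx g hg h1

open Classical in
theorem card_le (h : USL B s c Φ X) {a b : M} (ha : a ∈ Φ) (hb : b ∈ Φ) (hab : B a b = 1) :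
    (X.filter (fun x => B x a = 1)).card ≤ (X.filter (fun x => B x b = 1)).card := by
  have hg : a - b ∈ Φ := h.sub a ha b hb hab
  have hba : B b a = 1 := by rw [h.symm, hab]
  refine Finset.card_le_card_of_injOn (fun x => x - B x (a - b) • (a - b)) ?_ ?_
  · intro x hx
    rw [Finset.mem_coe, Finset.mem_filter] at hx
    show x - B x (a - b) • (a - b) ∈ ((X.filter (fun x => B x b = 1) : Finset M) : Set M)
    rw [Finset.mem_coe, Finset.mem_filter]
    refine ⟨refl_mem h hx.1 hg, ?_⟩
    have e1 : B (x - B x (a - b) • (a - b)) b = B x b - B x (a - b) * B (a - b) b := by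
      rw [map_sub, LinearMap.sub_apply, map_smul, LinearMap.smul_apply, smul_eq_mul]
    rw [e1, map_sub, map_sub, LinearMap.sub_apply, hab, h.two b hb, hx.2]
    ring
  · intro x _ y _ hxy
    have hxy' : x - B x (a - b) • (a - b) = y - B y (a - b) • (a - b) := hxy
    have h2 := h.two _ hg
    have e1 : B x (a - b) = B y (a - b) := by
      have h3 := congrArg (fun z => B z (a - b)) hxy'
      simp only [map_sub, map_smul, LinearMap.sub_apply, LinearMap.smul_apply, smul_eq_mul] at h3
      simp only [map_sub, LinearMap.sub_apply] at h2 ⊢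
      linear_combination (-1 : K) * h3 - (B x a - B x b - B y a + B y b) * h2
    rw [e1] at hxy'
    exact sub_left_injective hxy'

open Classical in
theorem card_eq (h : USL B s c Φ X) {a b : M} (ha : a ∈ Φ) (hb : b ∈ Φ) (hab : B a b = 1) :
    (X.filter (fun x => B x a = 1)).card = (X.filter (fun x => B x b = 1)).card :=
  le_antisymm (card_le h ha hb hab) (card_le h hb ha (by rw [h.symm, hab]))

open Classical in
theorem two_weights (h : USL B s c Φ X)
    (hr : ∃ a ∈ Φ, s a = 1 ∧ (X.filter (fun x => B x a = 1)).card ≠ 1) {a : M} (ha : a ∈ Φ)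
    (hsa : s a = 1) : ∃ x ∈ X, ∃ y ∈ X, x ≠ y ∧ B x a = 1 ∧ B y a = 1 := by
  have h1 := h.conn {b | (X.filter (fun x => B x b = 1)).card ≠ 1} hr (by
    intro a ha b hb _ _ hab hD
    show (X.filter (fun x => B x b = 1)).card ≠ 1
    rw [← card_eq h ha hb hab]
    exact hD) a ha hsa
  have h1' : (X.filter (fun x => B x a = 1)).card ≠ 1 := h1
  obtain ⟨x, hx, hxa⟩ := h.faith a ha
  have h2 : 1 < (X.filter (fun x => B x a = 1)).card := by
    have : 0 < (X.filter (fun x => B x a = 1)).card :=
      Finset.card_pos.2 ⟨x, Finset.mem_filter.2 ⟨hx, hxa⟩⟩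
    omega
  obtain ⟨x, hx, y, hy, hxy⟩ := Finset.one_lt_card.1 h2
  rw [Finset.mem_filter] at hx hy
  exact ⟨x, hx.1, y, hy.1, hxy, hx.2, hy.2⟩

/-- the key construction at a root `a` of value one -/
theorem exists_pair (h : USL B s c Φ X) {a x y : M} (ha : a ∈ Φ) (hsa : s a = 1)
    (hx : x ∈ X) (hy : y ∈ X) (hxy : x ≠ y) (hxa : B x a = 1) (hya : B y a = 1) :
    ∃ d ∈ Φ, ∃ d' ∈ Φ, s d = 1 ∧ s d' = 1 ∧ B a d = 1 ∧ B a d' = 1 ∧ d - d' ∈ Φ ∧
      B a (d - d') = 0 ∧ B x d = 1 ∧ B y d' = 1 ∧ B y d = 0 := by
  have hsx := (f1' h hx ha hsa hxa).1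
  have hsy := (f1' h hy ha hsa hya).1
  obtain ⟨g, hg, hxg, hyg⟩ := h.sep x hx y hy hxy
  have hsg : s g = 0 := by
    rcases vals h hg with h1 | h1 | h1
    · exfalso
      have h2 := f1 h hx hsx (h.neg g hg) (by rw [map_neg, h1, neg_neg])
      rw [map_neg, hxg] at h2
      rcases h2 with h2 | h2
      · have : (1 : K) = 0 := by linear_combination -h2
        exact one_ne_zero this
      · have : (2 : K) = 0 := by linear_combination -h2
        exact two_ne_zero this
    · exact h1
    · exfalso
      have h2 := f1 h hy hsy hg h1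
      rw [hyg] at h2
      rcases h2 with h2 | h2
      · have : (1 : K) = 0 := by linear_combination -h2
        exact one_ne_zero this
      · have : (2 : K) = 0 := by linear_combination -h2
        exact two_ne_zero this
  -- a root of value one is not plus or minus g
  have hne : ∀ d : M, s d = 1 → g ≠ d ∧ g ≠ -d := by
    intro d hd
    constructor
    · rintro rfl
      rw [hsg] at hd
      exact zero_ne_one hd
    · rintro rfl
      rw [map_neg, hd] at hsg
      have : (1 : K) = 0 := by linear_combination -hsg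
      exact one_ne_zero this
  have hga : B g a = 0 := by
    rcases h.pair g hg a ha (hne a hsa).1 (hne a hsa).2 with h1 | h1 | h1
    · exfalso
      have h2 := h.small x hx _ (add_mem h hg ha h1)
      rw [map_add, hxg, hxa] at h2
      rcases h2 with h2 | h2 | h2
      · have : (3 : K) = 0 := by linear_combination h2
        exact three_ne_zero this
      · have : (2 : K) = 0 := by linear_combination h2
        exact two_ne_zero this
      · have : (1 : K) = 0 := by linear_combination h2
        exact one_ne_zero this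
    · exact h1
    · exfalso
      have h2 := h.small y hy _ (h.sub g hg a ha h1)
      rw [map_sub, hyg, hya] at h2
      rcases h2 with h2 | h2 | h2
      · have : (1 : K) = 0 := by linear_combination -h2
        exact one_ne_zero this
      · have : (2 : K) = 0 := by linear_combination -h2
        exact two_ne_zero this
      · have : (3 : K) = 0 := by linear_combination -h2
        exact three_ne_zero this
  have hag : B a g = 0 := by rw [h.symm, hga]
  -- find d
  have hd0 : ∃ d ∈ Φ, s d = 1 ∧ B g d = 1 := by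
    by_contra hcon
    apply ne_zero h hg
    apply h.hit
    intro d hd hsd
    rcases h.pair g hg d hd (hne d hsd).1 (hne d hsd).2 with h1 | h1 | h1
    · exfalso
      apply hcon
      refine ⟨g + d, add_mem h hg hd h1, by rw [map_add, hsg, hsd, zero_add], ?_⟩
      rw [map_add, h.two g hg, h1]
      norm_num
    · exact h1
    · exact absurd ⟨d, hd, hsd, h1⟩ hcon
  obtain ⟨d, hd, hsd, hgd⟩ := hd0
  have hdg : B d g = 1 := by rw [h.symm, hgd]
  have hd' : d - g ∈ Φ := h.sub d hd g hg hdg
  have hsd' : s (d - g) = 1 := by rw [map_sub, hsd, hsg, sub_zero]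
  have hxd : B x d = 1 := by
    rcases f1 h hx hsx hd hsd with h1 | h1
    · exfalso
      have h2 := f1 h hx hsx hd' hsd'
      rw [map_sub, h1, hxg] at h2
      rcases h2 with h2 | h2
      · have : (1 : K) = 0 := by linear_combination -h2
        exact one_ne_zero this
      · have : (2 : K) = 0 := by linear_combination -h2
        exact two_ne_zero this
    · exact h1
  have hyd : B y d = 0 := by
    rcases f1 h hy hsy hd hsd with h1 | h1
    · exact h1
    · exfalso
      have h2 := f1 h hy hsy hd' hsd'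
      rw [map_sub, h1, hyg] at h2
      rcases h2 with h2 | h2
      · have : (2 : K) = 0 := by linear_combination h2
        exact two_ne_zero this
      · have : (1 : K) = 0 := by linear_combination h2
        exact one_ne_zero this
  have hyd' : B y (d - g) = 1 := by rw [map_sub, hyd, hyg]; ring
  have had : B a d = 1 := by
    have hne' : a ≠ d := by
      rintro rfl
      rw [hag] at hdg
      exact zero_ne_one hdg
    rcases f2 h ha hd hsa hsd hne' with h1 | h1
    · exfalso
      have := f4 h ha hd hx hsa hsd h1 hxa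
      rw [hxd] at this
      exact one_ne_zero this
    · exact h1
  refine ⟨d, hd, d - g, hd', hsd, hsd', had, by rw [map_sub, had, hag, sub_zero], ?_, ?_, hxd,
    hyd', hyd⟩
  · rwa [sub_sub_cancel]
  · rwa [sub_sub_cancel]

omit [CharZero K] in
/-- the linear form is constant on adjacent roots -/
theorem l_adj (h : USL B s c Φ X) {a : M}
    {l : M →ₗ[K] K} (hl0 : ∀ g ∈ Φ, B a g = 0 → l g = 0) {b e : M} (hb : b ∈ Φ) (he : e ∈ Φ)
    (hab : B a b = 1) (hae : B a e = 1) (hbe : B b e = 1) : l b = l e := by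
  have h1 := hl0 (b - e) (h.sub b hb e he hbe) (by rw [map_sub, hab, hae, sub_self])
  rw [map_sub] at h1
  exact sub_eq_zero.1 h1

omit [CharZero K] in
/-- the linear form changes sign on orthogonal roots -/
theorem l_orth (h : USL B s c Φ X) {a : M} (ha : a ∈ Φ)
    {l : M →ₗ[K] K} (hla : l a = 0) (hl0 : ∀ g ∈ Φ, B a g = 0 → l g = 0) {b e : M} (hb : b ∈ Φ)
    (he : e ∈ Φ) (hab : B a b = 1) (hae : B a e = 1) (hbe : B b e = 0) : l b = - l e := by
  have h1 := l_adj h hl0 hb (h.sub a ha e he hae) hab (by rw [map_sub, h.two a ha, hae]; norm_num)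
    (by rw [map_sub, h.symm b a, hab, hbe, sub_zero])
  rw [h1, map_sub, hla, zero_sub]

/-- CLAIM, the case in which `e` is orthogonal to `d`. -/
theorem clique_aux (h : USL B s c Φ X) {a y d d' e : M} (ha : a ∈ Φ)
    {l : M →ₗ[K] K} (hla : l a = 0) (hl0 : ∀ g ∈ Φ, B a g = 0 → l g = 0)
    (hl1 : ∀ b ∈ Φ, B a b = 1 → l b ≠ 0) (hsa : s a = 1)
    (hy : y ∈ X) (hya : B y a = 1)
    (hd : d ∈ Φ) (hd' : d' ∈ Φ) (hsd : s d = 1) (hsd' : s d' = 1) (had : B a d = 1)
    (had' : B a d' = 1) (hg : d - d' ∈ Φ) (hag : B a (d - d') = 0)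
    (hyd' : B y d' = 1) (hyd : B y d = 0)
    (he : e ∈ Φ) (hse : s e = 1) (hae : B a e = 1) (hed : B e d = 0) : False := by
  have hld : l d = l d' := by
    have := hl0 _ hg hag
    rw [map_sub] at this
    exact sub_eq_zero.1 this
  have hle : l e = - l d := l_orth h ha hla hl0 he hd hae had hed
  have hld0 := hl1 d hd had
  have hed' : B e d' = 0 := by
    by_cases hne : e = d'
    · exfalso
      rw [hne, ← hld] at hle
      apply hld0
      have : (2 : K) * l d = 0 := by linear_combination hle
      exact (mul_eq_zero.1 this).resolve_left two_ne_zero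
    · rcases f2 h he hd' hse hsd' hne with h1 | h1
      · exact h1
      · exfalso
        have h2 := l_adj h hl0 he hd' hae had' h1
        rw [hle, ← hld] at h2
        apply hld0
        have : (2 : K) * l d = 0 := by linear_combination -h2
        exact (mul_eq_zero.1 this).resolve_left two_ne_zero
  have hye : B y e = 0 := f4 h hd' he hy hsd' hse (by rw [h.symm, hed']) hyd'
  have hk : e - (a - d) ∈ Φ := h.sub e he _ (h.sub a ha d hd had)
    (by rw [map_sub, h.symm e a, hae, hed, sub_zero])
  have hsk : s (e - (a - d)) = 1 := by rw [map_sub, map_sub, hse, hsa, hsd]; ring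
  have hsy := (f1' h hy ha hsa hya).1
  have h1 := f1 h hy hsy hk hsk
  rw [map_sub, map_sub, hye, hya, hyd] at h1
  rcases h1 with h1 | h1
  · have : (1 : K) = 0 := by linear_combination -h1
    exact one_ne_zero this
  · have : (2 : K) = 0 := by linear_combination -h1
    exact two_ne_zero this

open Classical in
/-- CLAIM: two neighbours of value one of a root of value one are adjacent. -/
theorem clique (h : USL B s c Φ X)
    (hl : ∀ a ∈ Φ, s a = 1 → ∃ l : M →ₗ[K] K, l a = 0 ∧ (∀ g ∈ Φ, B a g = 0 → l g = 0) ∧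
      (∀ b ∈ Φ, B a b = 1 → l b ≠ 0))
    (hr : ∃ a ∈ Φ, s a = 1 ∧ (X.filter (fun x => B x a = 1)).card ≠ 1)
    {a b e : M} (ha : a ∈ Φ) (hb : b ∈ Φ) (he : e ∈ Φ) (hsa : s a = 1) (hsb : s b = 1)
    (hse : s e = 1) (hab : B a b = 1) (hae : B a e = 1) (hne : b ≠ e) : B b e = 1 := by
  obtain ⟨x, hx, y, hy, hxy, hxa, hya⟩ := two_weights h hr ha hsa
  obtain ⟨d, hd, d', hd', hsd, hsd', had, had', hg, hag, hxd, hyd', hyd⟩ :=
    exists_pair h ha hsa hx hy hxy hxa hya
  obtain ⟨l, hla, hl0, hl1⟩ := hl a ha hsa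
  have key : ∀ f ∈ Φ, s f = 1 → B a f = 1 → l f = l d := by
    intro f hf hsf haf
    by_cases hfd : f = d
    · rw [hfd]
    · rcases f2 h hf hd hsf hsd hfd with h1 | h1
      · exact (clique_aux h ha hla hl0 hl1 hsa hy hya hd hd' hsd hsd' had had' hg hag
          hyd' hyd hf hsf haf h1).elim
      · exact l_adj h hl0 hf hd haf had h1
  rcases f2 h hb he hsb hse hne with h1 | h1
  · exfalso
    have h2 := l_orth h ha hla hl0 hb he hab hae h1
    rw [key b hb hsb hab, key e he hse hae] at h2
    apply hl1 d hd had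
    have : (2 : K) * l d = 0 := by linear_combination h2
    exact (mul_eq_zero.1 this).resolve_left two_ne_zero
  · exact h1

end CR2

open Classical in
/-- CR2 -/
theorem USL.adjacent (h : USL B s c Φ X)
    (hl : ∀ a ∈ Φ, s a = 1 → ∃ l : M →ₗ[K] K, l a = 0 ∧ (∀ g ∈ Φ, B a g = 0 → l g = 0) ∧
      (∀ b ∈ Φ, B a b = 1 → l b ≠ 0))
    (hr : ∃ a ∈ Φ, s a = 1 ∧ (X.filter (fun x => B x a = 1)).card ≠ 1) :
    ∀ a ∈ Φ, ∀ b ∈ Φ, s a = 1 → s b = 1 → a ≠ b → B a b = 1 := by
  intro a ha b hb hsa hsb hne
  have h1 := h.conn {b | b = a ∨ B a b = 1} ⟨a, ha, hsa, Or.inl rfl⟩ (by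
    intro b hb e he hsb hse hbe hD
    rcases hD with hD | hD
    · subst hD
      exact Or.inr hbe
    · show e = a ∨ B a e = 1
      by_cases hea : e = a
      · exact Or.inl hea
      · exact Or.inr (CR2.clique h hl hr hb ha he hsb hsa hse (by rw [h.symm, hD]) hbe
          (Ne.symm hea))) b hb hsb
  rcases h1 with h1 | h1
  · exact absurd h1.symm hne
  · exact h1

end comb

end UN
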