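import Pool.Agent.Helper2.UN.SDefs
import Pool.Agent.Helper93.SR.NormC
import Pool.Agent.Helper93.SR.RatDefs
import Pool.Agent.Helper21.MT.Zar

/-!
Unitary Mumford-Tate pairs, block GA: from the matrix form to the abstract structure.
-/

set_option linter.unusedSimpArgs false
set_option linter.unusedSectionVars false

open Module MTPairs

namespace UN

open MTP

variable {K : Type*} [Field K] {m : Type*} [Fintype m] [DecidableEq m]
  {Γ : Subgroup (Equiv.Perm (m → K))} {J : Matrix m m K}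
  {G : Subgroup (Matrix.GeneralLinearGroup m K)} {π : Matrix m m K} {W W' : Submodule K (m → K)}

namespace GA

/-! ### The involution -/

lemma zW_apply (h : IsCompl W W') (v : m → K) :
    zW h v = (2 : K) • W.projection W' h v - v := rfl

lemma zW_left (h : IsCompl W W') {v : m → K} (hv : v ∈ W) : zW h v = v := by
  rw [zW_apply, Submodule.projection_apply_of_mem_left h hv, two_smul, add_sub_cancel_right]

lemma zW_right (h : IsCompl W W') {v : m → K} (hv : v ∈ W') : zW h v = -v := by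
  rw [zW_apply, Submodule.projection_apply_of_mem_right h hv, smul_zero, zero_sub]

lemma dec (h : IsCompl W W') (v : m → K) : ∃ a ∈ W, ∃ b ∈ W', v = a + b := by
  have : v ∈ W ⊔ W' := by rw [h.sup_eq_top]; trivial
  obtain ⟨a, ha, b, hb, hab⟩ := Submodule.mem_sup.1 this
  exact ⟨a, ha, b, hb, hab.symm⟩

lemma zW_add (h : IsCompl W W') {a b : m → K} (ha : a ∈ W) (hb : b ∈ W') :
    zW h (a + b) = a - b := by
  rw [map_add, zW_left h ha, zW_right h hb, sub_eq_add_neg]

lemma zW_zW (h : IsCompl W W') : zW h * zW h = 1 := by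
  apply LinearMap.ext
  intro v
  obtain ⟨a, ha, b, hb, rfl⟩ := dec h v
  rw [Module.End.mul_apply, zW_add h ha hb, sub_eq_add_neg, zW_add h ha (W'.neg_mem hb),
    sub_neg_eq_add, Module.End.one_apply]

/-- Operators commute with `z` if they preserve the two subspaces. -/
lemma comm_zW (h : IsCompl W W') {f : Module.End K (m → K)} (h1 : ∀ v ∈ W, f v ∈ W)
    (h2 : ∀ v ∈ W', f v ∈ W') : f * zW h = zW h * f := by
  apply LinearMap.ext
  intro v
  obtain ⟨a, ha, b, hb, rfl⟩ := dec h v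
  rw [Module.End.mul_apply, Module.End.mul_apply, zW_add h ha hb, map_sub, map_add,
    zW_add h (h1 a ha) (h2 b hb)]

/-! ### The form -/

lemma fJ_apply (J : Matrix m m K) (v w : m → K) : fJ J v w = v ⬝ᵥ J.mulVec w := by
  unfold fJ
  rw [Matrix.toBilin'_apply']

lemma fJ_flip [CharZero K] (hJ : J.transpose = -J) (v w : m → K) : fJ J v w = - fJ J w v := by
  rw [fJ_apply, fJ_apply, Matrix.dotProduct_mulVec, ← Matrix.mulVec_transpose, hJ,
    Matrix.neg_mulVec, neg_dotProduct, dotProduct_comm]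

lemma fJ_alt [CharZero K] (hJ : J.transpose = -J) : (fJ J).IsAlt := by
  intro v
  have h1 := fJ_flip hJ v v
  have h2 : (2 : K) * fJ J v v = 0 := by linear_combination h1
  exact (mul_eq_zero.mp h2).resolve_left two_ne_zero

lemma fJ_nd (hdet : J.det ≠ 0) : (fJ J).Nondegenerate :=
  LinearMap.BilinForm.nondegenerate_toBilin'_iff_det_ne_zero.2 hdet

/-! ### Operators and matrices -/

lemma toLin_mem {g : Matrix.GeneralLinearGroup m K} (hg : g ∈ G) :
    Matrix.toLin' (g : Matrix m m K) ∈ GE G := ⟨g, hg, rfl⟩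

lemma toLin_mul (A B : Matrix m m K) :
    Matrix.toLin' (A * B) = Matrix.toLin' A * Matrix.toLin' B := Matrix.toLin'_mul A B

lemma toLin_mul_inv (g : Matrix.GeneralLinearGroup m K) :
    Matrix.toLin' (g : Matrix m m K) *
      Matrix.toLin' ((g⁻¹ : Matrix.GeneralLinearGroup m K) : Matrix m m K) = 1 := by
  rw [← toLin_mul, GL_mul_inv, Matrix.toLin'_one]
  rfl

lemma toLin_inv_mul (g : Matrix.GeneralLinearGroup m K) :
    Matrix.toLin' ((g⁻¹ : Matrix.GeneralLinearGroup m K) : Matrix m m K) *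
      Matrix.toLin' (g : Matrix m m K) = 1 := by
  rw [← toLin_mul, GL_inv_mul, Matrix.toLin'_one]
  rfl

lemma linv_unique {g : Matrix.GeneralLinearGroup m K} {b : Module.End K (m → K)}
    (h : b * Matrix.toLin' (g : Matrix m m K) = 1) :
    b = Matrix.toLin' ((g⁻¹ : Matrix.GeneralLinearGroup m K) : Matrix m m K) := by
  calc b = b * (Matrix.toLin' (g : Matrix m m K) *
        Matrix.toLin' ((g⁻¹ : Matrix.GeneralLinearGroup m K) : Matrix m m K)) := by
        rw [toLin_mul_inv, mul_one]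
    _ = _ := by rw [← mul_assoc, h, one_mul]

/-! ### Conjugation by a semilinear bijection -/

section conj
variable {θ : Equiv.Perm (m → K)} {σ : K ≃+* K}
  (hadd : ∀ v w, θ (v + w) = θ v + θ w) (hσ : ∀ (c : K) v, θ (c • v) = σ c • θ v)

include hadd in
lemma add_inv (v w : m → K) : θ⁻¹ (v + w) = θ⁻¹ v + θ⁻¹ w := by
  apply θ.injective
  rw [hadd, perm_apply_inv, perm_apply_inv, perm_apply_inv]

include hσ in
lemma smul_inv' (c : K) (v : m → K) : θ⁻¹ (c • v) = σ.symm c • θ⁻¹ v := by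
  apply θ.injective
  rw [hσ, perm_apply_inv, perm_apply_inv, RingEquiv.apply_symm_apply]

/-- Conjugation. -/
def cE : Module.End K (m → K) ≃+* Module.End K (m → K) where
  toFun := fun x =>
    { toFun := fun v => θ (x (θ⁻¹ v))
      map_add' := by intro v w; rw [add_inv hadd, map_add, hadd]
      map_smul' := by
        intro c v
        rw [smul_inv' hσ, map_smul, hσ, RingEquiv.apply_symm_apply]
        rfl }
  invFun := fun x =>
    { toFun := fun v => θ⁻¹ (x (θ v))
      map_add' := by intro v w; rw [hadd, map_add, add_inv hadd]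
      map_smul' := by
        intro c v
        rw [hσ, map_smul, smul_inv' hσ, RingEquiv.symm_apply_apply]
        rfl }
  left_inv := by
    intro x
    apply LinearMap.ext
    intro v
    change θ⁻¹ (θ (x (θ⁻¹ (θ v)))) = x v
    rw [perm_inv_apply, perm_inv_apply]
  right_inv := by
    intro x
    apply LinearMap.ext
    intro v
    change θ (θ⁻¹ (x (θ (θ⁻¹ v)))) = x v
    rw [perm_apply_inv, perm_apply_inv]
  map_mul' := by
    intro x y
    apply LinearMap.ext
    intro v
    change θ (x (y (θ⁻¹ v))) = θ (x (θ⁻¹ (θ (y (θ⁻¹ v)))))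
    rw [perm_inv_apply]
  map_add' := by
    intro x y
    apply LinearMap.ext
    intro v
    change θ (x (θ⁻¹ v) + y (θ⁻¹ v)) = θ (x (θ⁻¹ v)) + θ (y (θ⁻¹ v))
    rw [hadd]

lemma cE_apply (x : Module.End K (m → K)) (v : m → K) :
    cE hadd hσ x (θ v) = θ (x v) := by
  change θ (x (θ⁻¹ (θ v))) = θ (x v)
  rw [perm_inv_apply]

end conj

section ind
variable {θ : Equiv.Perm (m → K)} {τ : Module.End K (m → K) ≃+* Module.End K (m → K)}
  (hτ : ∀ (x : Module.End K (m → K)) (v : m → K), τ x (θ v) = θ (x v))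
include hτ

lemma ind_apply (x : Module.End K (m → K)) (w : m → K) : τ x w = θ (x (θ⁻¹ w)) := by
  rw [← hτ, perm_apply_inv]

lemma ind_semi {σ : K ≃+* K} (hσ : ∀ (c : K) v, θ (c • v) = σ c • θ v) (c : K)
    (x : Module.End K (m → K)) : τ (c • x) = σ c • τ x := by
  apply LinearMap.ext
  intro w
  rw [ind_apply hτ, LinearMap.smul_apply, LinearMap.smul_apply, hσ, ind_apply hτ]

lemma ind_rk {σ : K ≃+* K} (hadd : ∀ v w, θ (v + w) = θ v + θ w)
    (hσ : ∀ (c : K) v, θ (c • v) = σ c • θ v) (x : Module.End K (m → K)) :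
    MTP.rk (τ x) = MTP.rk x := by
  have hr : Module.rank K (LinearMap.range x) = Module.rank K (LinearMap.range (τ x)) := by
    let j : LinearMap.range x ≃+ LinearMap.range (τ x) :=
      { toFun := fun v => ⟨θ (v : m → K), by
          obtain ⟨w, hw⟩ := v.2
          exact ⟨θ w, by rw [hτ, hw]⟩⟩
        invFun := fun v => ⟨θ⁻¹ (v : m → K), by
          obtain ⟨w, hw⟩ := v.2
          refine ⟨θ⁻¹ w, ?_⟩
          rw [← hw, ind_apply hτ, perm_inv_apply]⟩
        left_inv := by intro v; apply Subtype.ext; exact perm_inv_apply θ _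
        right_inv := by intro v; apply Subtype.ext; exact perm_apply_inv θ _
        map_add' := by intro v w; apply Subtype.ext; exact hadd _ _ }
    refine rank_eq_of_equiv_equiv (σ : K → K) j σ.bijective ?_
    intro c v
    apply Subtype.ext
    exact hσ c v
  unfold MTP.rk finrank
  rw [hr]

lemma ind_res {A B : Matrix m m K} (hAB : ∀ v, B.mulVec (θ v) = θ (A.mulVec v)) :
    τ (Matrix.toLin' A) = Matrix.toLin' B := by
  apply LinearMap.ext
  intro w
  rw [ind_apply hτ, Matrix.toLin'_apply, Matrix.toLin'_apply, ← hAB, perm_apply_inv]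

end ind

/-- Two induced automorphisms agree on `x` if the bijections agree on the standard basis and on
its image under `x`. -/
lemma agree {θ θ' : Equiv.Perm (m → K)} {σ : K ≃+* K}
    {τ τ' : Module.End K (m → K) ≃+* Module.End K (m → K)}
    (hadd : ∀ v w, θ (v + w) = θ v + θ w) (hσ : ∀ (c : K) v, θ (c • v) = σ c • θ v)
    (hτ : ∀ (x : Module.End K (m → K)) (v : m → K), τ x (θ v) = θ (x v))
    (hτ' : ∀ (x : Module.End K (m → K)) (v : m → K), τ' x (θ' v) = θ' (x v))
    {x : Module.End K (m → K)} (h1 : ∀ i, θ' (Pi.single i 1) = θ (Pi.single i 1))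
    (h2 : ∀ i, θ' (x (Pi.single i 1)) = θ (x (Pi.single i 1))) : τ' x = τ x := by
  have hspan : ∀ v : m → K, θ v ∈
      Submodule.span K (Set.range fun i : m => θ (Pi.single i (1 : K))) := by
    intro v
    have hv : v ∈ Submodule.span K (Set.range (Pi.basisFun K m)) := by
      rw [(Pi.basisFun K m).span_eq]; trivial
    refine Submodule.span_induction (p := fun v _ => θ v ∈
      Submodule.span K (Set.range fun i : m => θ (Pi.single i (1 : K)))) ?_ ?_ ?_ ?_ hv
    · rintro _ ⟨i, rfl⟩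
      rw [Pi.basisFun_apply]
      exact Submodule.subset_span ⟨i, rfl⟩
    · have h3 := hσ 0 0
      rw [zero_smul, map_zero σ, zero_smul] at h3
      rw [h3]; exact Submodule.zero_mem _
    · intro v w _ _ hv hw
      rw [hadd]; exact Submodule.add_mem _ hv hw
    · intro c v _ hv
      rw [hσ]; exact Submodule.smul_mem _ _ hv
  apply LinearMap.ext
  intro w
  obtain ⟨v, rfl⟩ := θ.surjective w
  refine Submodule.span_induction (p := fun w _ => τ' x w = τ x w) ?_ ?_ ?_ ?_ (hspan v)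
  · rintro _ ⟨i, rfl⟩
    change τ' x (θ (Pi.single i 1)) = τ x (θ (Pi.single i 1))
    rw [hτ, ← h1 i, hτ', h2 i]
  · rw [map_zero, map_zero]
  · intro v w _ _ hv hw
    rw [map_add, map_add, hv, hw]
  · intro c v _ hv
    rw [map_smul, map_smul, hv]

/-- The conjugates of the cocharacter, as operators. -/
lemma of_sc (D : IsStrongMTPair Γ J G π) {p : Module.End K (m → K)}
    (hp : p ∈ SC (GE G) (TE Γ) (Matrix.toLin' π)) :
    ∃ P, IsConj Γ G π P ∧ p = Matrix.toLin' P := by
  obtain ⟨τ, ⟨θ, hθ, hτ⟩, a, ⟨g, hg, rfl⟩, b, -, hab, hba, rfl⟩ := hp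
  obtain ⟨P, hP⟩ := exists_isConj D hθ g
  refine ⟨P, ⟨θ, hθ, g, hg, hP⟩, ?_⟩
  apply LinearMap.ext
  intro w
  obtain ⟨v, rfl⟩ := gth_surj θ g w
  rw [Matrix.toLin'_apply, hP, ← Matrix.toLin'_apply (g : Matrix m m K) (θ v)]
  have e : b (Matrix.toLin' (g : Matrix m m K) (θ v)) = θ v :=
    congrArg (fun f : Module.End K (m → K) => f (θ v)) hba
  rw [Module.End.mul_apply, Module.End.mul_apply, e, hτ, Matrix.toLin'_apply,
    Matrix.toLin'_apply]

lemma sc_of (D : IsStrongMTPair Γ J G π) {P : Matrix m m K} (hP : IsConj Γ G π P) :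
    Matrix.toLin' P ∈ SC (GE G) (TE Γ) (Matrix.toLin' π) := by
  obtain ⟨θ, hθ, g, hg, hP⟩ := hP
  obtain ⟨σ, hadd, hσ⟩ := D.semi θ hθ
  refine ⟨cE hadd hσ, ⟨θ, hθ, cE_apply hadd hσ⟩, _, toLin_mem hg, _, toLin_mem (G.inv_mem hg),
    toLin_mul_inv g, toLin_inv_mul g, ?_⟩
  apply LinearMap.ext
  intro w
  obtain ⟨v, rfl⟩ := gth_surj θ g w
  rw [Matrix.toLin'_apply, hP, Module.End.mul_apply, Module.End.mul_apply,
    Matrix.toLin'_apply ((g⁻¹ : Matrix.GeneralLinearGroup m K) : Matrix m m K),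
    Matrix.mulVec_mulVec, GL_inv_mul, Matrix.one_mulVec, cE_apply, Matrix.toLin'_apply,
    Matrix.toLin'_apply]

lemma one_param (P : Matrix m m K) (t : K) :
    Matrix.toLin' (t • P + (1 - P)) = 1 + (t - 1) • Matrix.toLin' P := by
  rw [map_add, map_sub, map_smul, Matrix.toLin'_one]
  change t • Matrix.toLin' P + (1 - Matrix.toLin' P) = _
  module

lemma idem_inv {V : Type*} [AddCommGroup V] [Module K V] {p : Module.End K V} (hp : p * p = p)
    {t : K} (ht : t ≠ 0) : (1 + (t - 1) • p) * (1 + (t⁻¹ - 1) • p) = 1 := by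
  simp only [mul_add, add_mul, mul_one, one_mul, smul_mul_assoc, mul_smul_comm, hp]
  have : (t - 1) + (t⁻¹ - 1) + (t - 1) * (t⁻¹ - 1) = 0 := by field_simp; ring
  trans (1 + ((t - 1) + (t⁻¹ - 1) + (t - 1) * (t⁻¹ - 1)) • p)
  · module
  · rw [this, zero_smul, add_zero]

end GA

open GA

/-- GA0 -/
theorem Wz_zW [CharZero K] (h : IsCompl W W') : Wz (zW h) = W := by
  ext v
  rw [mem_Wz]
  constructor
  · intro hv
    rw [zW_apply, sub_eq_iff_eq_add, ← two_smul K v] at hv
    have h2 := congrArg (fun w => (2 : K)⁻¹ • w) hv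
    simp only [smul_smul, inv_mul_cancel₀ (two_ne_zero : (2 : K) ≠ 0), one_smul] at h2
    rw [← h2]
    exact Submodule.projection_apply_mem h v
  · exact fun hv => zW_left h hv

/-- GA1: the abstract data of a unitary pair (model: `strU` in `Helper93/SR/Asm.lean`; here the
restriction to a summand is not needed, everything lives on `K^m`). -/
theorem ustr [CharZero K] (D : IsStrongMTPair Γ J G π) (hW : IsUnitarySplit Γ J G W W')
    (hne : W ≠ ⊥) :
    UStr (fJ J) (zW hW.compl) (GE G) (TE Γ) (Matrix.toLin' π) where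
  nt := by
    obtain ⟨v, -, hv⟩ := Submodule.exists_mem_ne_zero_of_ne_bot hne
    exact ⟨⟨v, 0, hv⟩⟩
  nd := fJ_nd D.det
  alt := fJ_alt D.skew
  zz := zW_zW hW.compl
  zsk := by
    intro v w
    obtain ⟨a, ha, b, hb, rfl⟩ := dec hW.compl v
    obtain ⟨c, hc, d, hd, rfl⟩ := dec hW.compl w
    rw [zW_add hW.compl ha hb, zW_add hW.compl hc hd]
    have h1 : fJ J a c = 0 := by rw [fJ_apply]; exact hW.iso a ha c hc
    have h2 : fJ J b d = 0 := by rw [fJ_apply]; exact hW.iso' b hb d hd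
    simp only [map_add, map_sub, LinearMap.add_apply, LinearMap.sub_apply, h1, h2]
    ring
  one := ⟨1, G.one_mem, by rw [Units.val_one, Matrix.toLin'_one]; rfl⟩
  mul := by
    rintro _ ⟨g, hg, rfl⟩ _ ⟨h, hh, rfl⟩
    exact ⟨g * h, G.mul_mem hg hh, by rw [Units.val_mul, Matrix.toLin'_mul]; rfl⟩
  inv := by
    rintro _ ⟨g, hg, rfl⟩
    exact ⟨_, toLin_mem (G.inv_mem hg), toLin_mul_inv g, toLin_inv_mul g⟩
  sim := by
    rintro _ ⟨g, hg, rfl⟩
    obtain ⟨c, hc⟩ := D.sim g hg
    refine ⟨c, fun v w => ?_⟩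
    rw [fJ_apply, fJ_apply, Matrix.toLin'_apply, Matrix.toLin'_apply]
    have e : ((g : Matrix m m K).mulVec v) ⬝ᵥ J.mulVec ((g : Matrix m m K).mulVec w) =
        v ⬝ᵥ ((g : Matrix m m K).transpose * J * g).mulVec w := by
      rw [← Matrix.mulVec_mulVec, ← Matrix.mulVec_mulVec, Matrix.dotProduct_mulVec v,
        Matrix.vecMul_transpose]
    rw [e, hc, Matrix.smul_mulVec, dotProduct_smul, smul_eq_mul]
  gz := by
    rintro _ ⟨g, hg, rfl⟩
    refine comm_zW hW.compl (fun v hv => ?_) (fun v hv => ?_)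
    · rw [Matrix.toLin'_apply]; exact hW.stable g hg v hv
    · rw [Matrix.toLin'_apply]; exact hW.stable' g hg v hv
  irr := by
    intro U hU hg
    rw [Wz_zW] at hU ⊢
    refine hW.irr U hU fun g hg' v hv => ?_
    rw [← Matrix.toLin'_apply]
    exact hg _ (toLin_mem hg') v hv
  semi := by
    rintro τ ⟨θ, hθ, hτ⟩
    obtain ⟨σ, hadd, hσ⟩ := D.semi θ hθ
    exact ⟨σ, ind_semi hτ hσ⟩
  rk := by
    rintro τ ⟨θ, hθ, hτ⟩ x
    obtain ⟨σ, hadd, hσ⟩ := D.semi θ hθ
    exact ind_rk hτ hadd hσ x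
  tz := by
    rintro τ ⟨θ, hθ, hτ⟩
    obtain ⟨σ, hadd, hσ⟩ := D.semi θ hθ
    have hsub : ∀ (v w : m → K), θ (v - w) = θ v - θ w := by
      intro v w
      rw [eq_sub_iff_add_eq, ← hadd, sub_add_cancel]
    rcases hW.perm θ hθ with ⟨h1, h2⟩ | ⟨h1, h2⟩
    · left
      apply LinearMap.ext
      intro w
      obtain ⟨v, rfl⟩ := θ.surjective w
      obtain ⟨a, ha, b, hb, rfl⟩ := dec hW.compl v
      rw [hτ, zW_add hW.compl ha hb, hsub, hadd, zW_add hW.compl (h1 a ha) (h2 b hb)]
    · right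
      apply LinearMap.ext
      intro w
      obtain ⟨v, rfl⟩ := θ.surjective w
      obtain ⟨a, ha, b, hb, rfl⟩ := dec hW.compl v
      rw [hτ, zW_add hW.compl ha hb, hsub, hadd, LinearMap.neg_apply, add_comm (θ a),
        zW_add hW.compl (h2 b hb) (h1 a ha), neg_sub]
  tone := ⟨1, Γ.one_mem, fun x v => rfl⟩
  tmul := by
    rintro τ ⟨θ, hθ, hτ⟩ τ' ⟨θ', hθ', hτ'⟩
    refine ⟨θ * θ', Γ.mul_mem hθ hθ', fun x v => ?_⟩
    rw [RingEquiv.trans_apply, Equiv.Perm.mul_apply, Equiv.Perm.mul_apply, hτ, hτ']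
  tinv := by
    rintro τ ⟨θ, hθ, hτ⟩
    refine ⟨θ⁻¹, Γ.inv_mem hθ, fun x v => ?_⟩
    apply θ.injective
    rw [← hτ, RingEquiv.apply_symm_apply, perm_apply_inv, perm_apply_inv]
  tgrp := by
    rintro τ ⟨θ, hθ, hτ⟩ _ ⟨g, hg, rfl⟩
    obtain ⟨g', hg', h⟩ := D.norm θ hθ g hg
    exact ⟨g', hg', ind_res hτ h⟩
  idem := by
    have h1 := congrArg Matrix.toLin' D.coch.1
    rwa [Matrix.toLin'_mul] at h1
  cpt := by
    intro p hp t ht
    obtain ⟨P, hPc, rfl⟩ := of_sc D hp
    obtain ⟨h, hh, hht⟩ := (smat_cochar D hPc).2 t ht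
    exact ⟨h, hh, by rw [hht, one_param]⟩
  genA := by
    rintro M hM _ ⟨g, hg, rfl⟩
    let N : Submodule K (Matrix m m K) :=
      (Subalgebra.toSubmodule M).comap (Matrix.toLin' : Matrix m m K ≃ₗ[K] _).toLinearMap
    have hN : ∀ A : Matrix m m K, A ∈ N ↔ Matrix.toLin' A ∈ M := fun A => Iff.rfl
    let H : Subgroup (Matrix.GeneralLinearGroup m K) :=
      { carrier := {g | g ∈ G ∧ (g : Matrix m m K) ∈ N}
        one_mem' := by
          refine ⟨G.one_mem, ?_⟩
          rw [hN, Units.val_one, Matrix.toLin'_one]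
          exact M.one_mem
        mul_mem' := by
          rintro g g' ⟨hg, hA⟩ ⟨hg', hB⟩
          refine ⟨G.mul_mem hg hg', ?_⟩
          rw [hN] at hA hB ⊢
          rw [Units.val_mul, Matrix.toLin'_mul]
          exact M.mul_mem hA hB
        inv_mem' := by
          rintro g ⟨hg, hA⟩
          refine ⟨G.inv_mem hg, ?_⟩
          rw [hN] at hA ⊢
          exact inv_mem_subalgebra (A := Module.End K (m → K)) M hA (toLin_inv_mul g) }
    have hHclosed : ZariskiClosed H := closed_of_linear G H D.closed N fun g => Iff.rfl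
    have hGH := D.gen H hHclosed (by
      intro P hPc
      obtain ⟨h1, h2⟩ := smat_cochar D hPc
      refine ⟨h1, fun t ht => ?_⟩
      obtain ⟨h, hh, hht⟩ := h2 t ht
      refine ⟨h, ⟨hh, ?_⟩, hht⟩
      rw [hN, hht, one_param]
      exact M.add_mem M.one_mem (M.smul_mem (hM _ (sc_of D hPc)) _))
    exact (hGH hg).2
  genB := by
    rintro M hM _ ⟨γ, hγ, rfl⟩ b - hab hba x hx
    let N : Submodule K (Matrix m m K) :=
      M.comap (Matrix.toLin' : Matrix m m K ≃ₗ[K] _).toLinearMap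
    have hN : ∀ A : Matrix m m K, A ∈ N ↔ Matrix.toLin' A ∈ M := fun A => Iff.rfl
    have hb := linv_unique hba
    have key := smat_normal D N (by
      rintro P hPc t ht h hh hht X hX
      rw [hN] at hX ⊢
      have hpsc := sc_of D hPc
      have hpp : Matrix.toLin' P * Matrix.toLin' P = Matrix.toLin' P := by
        have h1 := congrArg Matrix.toLin' (smat_cochar D hPc).1
        rwa [Matrix.toLin'_mul] at h1
      have h1 : Matrix.toLin' (h : Matrix m m K) = 1 + (t - 1) • Matrix.toLin' P := by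
        rw [hht, one_param]
      have h2 : 1 + (t⁻¹ - 1) • Matrix.toLin' P =
          Matrix.toLin' ((h⁻¹ : Matrix.GeneralLinearGroup m K) : Matrix m m K) := by
        apply linv_unique
        rw [h1]
        have := idem_inv hpp (inv_ne_zero ht)
        rwa [inv_inv] at this
      rw [Matrix.toLin'_mul, Matrix.toLin'_mul]
      have h3 := hM _ hpsc t ht _ hX
      rw [← h1, h2] at h3
      exact h3) hγ (X := LinearMap.toMatrix' x) (by
      rw [hN, Matrix.toLin'_toMatrix']; exact hx)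
    rw [hN, Matrix.toLin'_mul, Matrix.toLin'_mul, Matrix.toLin'_toMatrix', ← hb] at key
    exact key

/-- GA2: density (model: `dense_res` in `Helper93/SR/RatG.lean`). -/
theorem dense_E [CharZero K] (D : IsStrongMTPair Γ J G π) {t : ℕ} (ht : 0 < t)
    (hd : DenseQuad Γ G ⊤ t) :
    ∀ τ ∈ TE Γ, ∀ E : Finset (Module.End K (m → K)), ∃ τ' ∈ TE Γ, (∀ x ∈ E, τ' x = τ x) ∧
      ∃ u ∈ GE G, (u - 1) * (u - 1) = 0 ∧ u - 1 ≠ 0 ∧ MTP.rk (u - 1) = t ∧ τ' u = u := by
  classical
  rintro τ ⟨θ, hθ, hτ⟩ E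
  let b : m → (m → K) := fun i => Pi.single i 1
  let E0 : Finset (m → K) := (Finset.univ.image b) ∪
    E.biUnion fun x => Finset.univ.image fun i => x (b i)
  obtain ⟨γ', hγ', hE, u, hu, hcomm, hquad⟩ := hd θ hθ E0
  obtain ⟨σ, hadd, hσ⟩ := D.semi θ hθ
  obtain ⟨σ', hadd', hσ'⟩ := D.semi γ' hγ'
  refine ⟨cE hadd' hσ', ⟨γ', hγ', cE_apply hadd' hσ'⟩, ?_, Matrix.toLin' (u : Matrix m m K),
    toLin_mem hu, ?_⟩
  · intro x hx
    have h1 : ∀ i, γ' (b i) = θ (b i) := by
      intro i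
      apply hE
      exact Finset.mem_union_left _ (Finset.mem_image_of_mem _ (Finset.mem_univ i))
    have h2 : ∀ i, γ' (x (b i)) = θ (x (b i)) := by
      intro i
      apply hE
      apply Finset.mem_union_right
      rw [Finset.mem_biUnion]
      exact ⟨x, hx, Finset.mem_image_of_mem (fun i => x (b i)) (Finset.mem_univ i)⟩
    exact agree hadd hσ hτ (cE_apply hadd' hσ') h1 h2
  · obtain ⟨hq1, hq2⟩ := hquad
    have hN : Matrix.toLin' (u : Matrix m m K) - 1 = ((u : Matrix m m K) - 1).mulVecLin := by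
      apply LinearMap.ext
      intro v
      rw [LinearMap.sub_apply, Matrix.toLin'_apply, Matrix.mulVecLin_apply, Matrix.sub_mulVec,
        Matrix.one_mulVec, Module.End.one_apply]
    have hrk : MTP.rk (Matrix.toLin' (u : Matrix m m K) - 1) = t := by
      rw [hN, ← hq2, Submodule.map_top]
      rfl
    refine ⟨?_, ?_, hrk, ?_⟩
    · apply LinearMap.ext
      intro v
      rw [hN]
      exact hq1 v trivial
    · intro h0
      rw [h0] at hrk
      have : MTP.rk (0 : Module.End K (m → K)) = 0 := rk_eq_zero.mpr rfl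
      omega
    · exact ind_res (cE_apply hadd' hσ') hcomm

end UN
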